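import Mathlib

namespace Pool.Agent.Results.MP_89fae5_co.Yes

open Finset Equiv

/-- the edge set of the spanning path `σ 0, σ 1, ..., σ (n-1)` -/
def edges {n : ℕ} (σ : Perm (Fin n)) : Finset (Sym2 (Fin n)) :=
  {e | ∃ i j : Fin n, i.val + 1 = j.val ∧ e = s(σ i, σ j)}

/-- spanning paths of the complete graph, as edge sets -/
def SP (n : ℕ) := {E : Finset (Sym2 (Fin n)) // ∃ σ : Perm (Fin n), E = edges σ}

/-- the path graph of the complete graph -/
def G (n : ℕ) : SimpleGraph (SP n) where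
  Adj u v := u ≠ v ∧ #(u.1 ∩ v.1) + 2 = n
  symm := ⟨fun u v h => ⟨h.1.symm, by rw [inter_comm]; exact h.2⟩⟩
  loopless := ⟨fun u h => h.1 rfl⟩

variable {n : ℕ}

lemma mem_edges (σ : Perm (Fin n)) (x y : Fin n) : s(x, y) ∈ edges σ ↔
    (σ.symm x).val + 1 = (σ.symm y).val ∨ (σ.symm y).val + 1 = (σ.symm x).val := by
  simp only [edges, mem_filter, mem_univ, true_and, Sym2.eq_iff]
  constructor
  · rintro ⟨i, j, h, ⟨rfl, rfl⟩ | ⟨rfl, rfl⟩⟩ <;> simp [h]
  · rintro (h | h)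
    · exact ⟨_, _, h, by simp⟩
    · exact ⟨_, _, h, by simp⟩

lemma mem_img (π : Perm (Fin n)) (X : Finset (Sym2 (Fin n))) (e : Sym2 (Fin n)) :
    e ∈ X.image (Sym2.map π) ↔ Sym2.map π.symm e ∈ X := by
  rw [mem_image]
  constructor
  · rintro ⟨a, h, rfl⟩; simpa [Sym2.map_map] using h
  · exact fun h => ⟨_, h, by simp [Sym2.map_map]⟩

lemma img_edges (π σ : Perm (Fin n)) : (edges σ).image (Sym2.map π) = edges (π * σ) := by
  ext e
  induction e using Sym2.ind with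
  | _ x y => rw [mem_img, Sym2.map_mk, mem_edges, mem_edges]; rfl

def act0 (π : Perm (Fin n)) (u : SP n) : SP n :=
  ⟨u.1.image (Sym2.map π), by obtain ⟨σ, h⟩ := u.2; exact ⟨π * σ, by rw [h, img_edges]⟩⟩

lemma act0_mul (π ρ : Perm (Fin n)) (u : SP n) : act0 π (act0 ρ u) = act0 (π * ρ) u :=
  Subtype.ext (by simp [act0, image_image, ← Sym2.map_comp])

lemma act0_one (u : SP n) : act0 1 u = u := Subtype.ext (by simp [act0])

def act (π : Perm (Fin n)) : G n ≃g G n where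
  toFun := act0 π
  invFun := act0 π⁻¹
  left_inv u := by rw [act0_mul, inv_mul_cancel, act0_one]
  right_inv u := by rw [act0_mul, mul_inv_cancel, act0_one]
  map_rel_iff' := by
    intro u v
    have i := Sym2.map.injective π.injective
    refine and_congr (not_congr ⟨fun h => Subtype.ext (image_injective i (congrArg (·.1) h)),
      fun h => h ▸ rfl⟩) ?_
    simp only [coe_fn_mk, act0]
    rw [← image_inter _ _ i, card_image_of_injective _ i]

def pth (σ : Perm (Fin n)) : SP n := ⟨edges σ, σ, rfl⟩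

lemma act_pth (π σ : Perm (Fin n)) : act π (pth σ) = pth (π * σ) := Subtype.ext (img_edges _ _)

lemma act_inv (π : Perm (Fin n)) (u : SP n) : act π (act π⁻¹ u) = u := (act π).right_inv u

variable [NeZero n]

def ed (n : ℕ) [NeZero n] (a b : ℕ) : Sym2 (Fin n) := s(Fin.ofNat n a, Fin.ofNat n b)

lemma ofv {a : ℕ} (h : a < n) : (Fin.ofNat n a).val = a := Nat.mod_eq_of_lt h

lemma ed_eq {a b c d : ℕ} (ha : a < n) (hb : b < n) (hc : c < n) (hd : d < n) :
    ed n a b = ed n c d ↔ (a = c ∧ b = d) ∨ (a = d ∧ b = c) := by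
  simp only [ed, Sym2.eq_iff, Fin.ext_iff, ofv, ha, hb, hc, hd]

lemma ed_surj (e : Sym2 (Fin n)) : ∃ a b, a ≤ b ∧ b < n ∧ e = ed n a b := by
  induction e using Sym2.ind with
  | _ x y =>
    rcases le_total x.val y.val with h | h
    · exact ⟨x, y, h, y.2, by simp [ed]⟩
    · exact ⟨y, x, h, x.2, by simp [ed, Sym2.eq_swap]⟩

lemma ed_ext {X Y : Finset (Sym2 (Fin n))} (h : ∀ x < n, ∀ y < n, ed n x y ∈ X ↔ ed n x y ∈ Y) :
    X = Y := by
  ext e
  obtain ⟨a, b, h1, h2, rfl⟩ := ed_surj e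
  exact h a (by omega) b h2

lemma ed_mem {x y : ℕ} (hx : x < n) (hy : y < n) :
    ed n x y ∈ edges 1 ↔ x + 1 = y ∨ y + 1 = x := by
  rw [ed, mem_edges]
  change (Fin.ofNat n x).val + 1 = (Fin.ofNat n y).val ∨ (Fin.ofNat n y).val + 1 = (Fin.ofNat n x).val ↔ _
  rw [ofv hx, ofv hy]

lemma card_sp (u : SP n) : #u.1 + 1 = n := by
  obtain ⟨_, σ, rfl⟩ := u
  have : edges (1 : Perm (Fin n)) = (range (n - 1)).image fun i => ed n i (i + 1) := by
    refine ed_ext fun x hx y hy => ?_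
    rw [ed_mem hx hy, mem_image]
    constructor
    · rintro (rfl | rfl)
      · exact ⟨x, mem_range.2 (by omega), rfl⟩
      · exact ⟨y, mem_range.2 (by omega), Sym2.eq_swap⟩
    · rintro ⟨i, hi, h⟩
      have := mem_range.1 hi
      rw [ed_eq (by omega) (by omega) hx hy] at h; omega
  simp only
  rw [← mul_one σ, ← img_edges, card_image_of_injective _ (Sym2.map.injective σ.injective), this,
    card_image_of_injOn, card_range]
  · have := NeZero.pos n; omega
  · intro i hi j hj h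
    simp only [coe_range, Set.mem_Iio] at hi hj
    have := (ed_eq (by omega) (by omega) (by omega) (by omega)).1 h; omega

lemma adj_iff (u v : SP n) : (G n).Adj u v ↔ #(u.1 \ v.1) = 1 := by
  have h1 := card_sdiff_add_card_inter u.1 v.1
  have h2 := card_sp u
  refine ⟨fun h => by have := h.2; omega, fun h => ⟨?_, by omega⟩⟩
  rintro rfl; simp at h

lemma sp_eq {u v : SP n} (h : u.1 ⊆ v.1) : u = v :=
  Subtype.ext (eq_of_subset_of_card_le h (by have := card_sp u; have := card_sp v; omega))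

lemma deg (u : SP n) {x a b c : ℕ} (ha : a < n) (hb : b < n) (hc : c < n) (h1 : ed n x a ∈ u.1)
    (h2 : ed n x b ∈ u.1) (h3 : ed n x c ∈ u.1) : a = b ∨ a = c ∨ b = c := by
  obtain ⟨_, σ, rfl⟩ := u
  simp only [ed, mem_edges] at h1 h2 h3
  have k : ∀ {a b}, a < n → b < n → (σ.symm (Fin.ofNat n a)).val = (σ.symm (Fin.ofNat n b)).val →
      a = b := fun ha hb h => by
    have := congrArg Fin.val (σ.symm.injective (Fin.ext h))
    rwa [ofv ha, ofv hb] at this
  have := k ha hb; have := k ha hc; have := k hb hc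
  omega

lemma conn (u : SP n) (S : ℕ → Prop) (h : ∀ x < n, ∀ y < n, ed n x y ∈ u.1 → (S x ↔ S y))
    {x y : ℕ} (hx : x < n) (hy : y < n) : S x ↔ S y := by
  obtain ⟨_, σ, rfl⟩ := u
  have k : ∀ i (hi : i < n), S (σ ⟨i, hi⟩) ↔ S (σ 0) := by
    intro i
    induction i with
    | zero => exact fun _ => Iff.rfl
    | succ i ih =>
      intro hi
      rw [← ih (by omega)]
      exact h _ (Fin.is_lt _) _ (Fin.is_lt _) (by simp [ed, mem_edges])
  have k2 : ∀ x < n, S x ↔ S (σ 0) := fun x hx => by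
    simpa using k (σ.symm ⟨x, hx⟩) (Fin.is_lt _)
  rw [k2 x hx, k2 y hy]

def mkp (f : ℕ → ℕ) (h1 : ∀ k < n, f k < n) (h2 : ∀ k < n, f (f k) = k) : Perm (Fin n) :=
  Function.Involutive.toPerm (fun k => ⟨f k, h1 k k.2⟩) fun k => Fin.ext (h2 k k.2)

lemma mem_mkp {f : ℕ → ℕ} (h1 : ∀ k < n, f k < n) (h2 : ∀ k < n, f (f k) = k) (u : SP n) {x y : ℕ}
    (hx : x < n) (hy : y < n) : ed n x y ∈ (act (mkp f h1 h2) u).1 ↔ ed n (f x) (f y) ∈ u.1 := by
  change _ ∈ u.1.image _ ↔ _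
  rw [mem_img, ed, Sym2.map_mk, ed]
  have : ∀ x < n, (mkp f h1 h2).symm (Fin.ofNat n x) = Fin.ofNat n (f x) := fun x hx =>
    Fin.ext (by rw [ofv (h1 x hx)]; change f (Fin.ofNat n x).val = _; rw [ofv hx])
  rw [this x hx, this y hy]

def Valid (n i a b : ℕ) : Prop :=
  i + 1 < n ∧ (a = 0 ∨ a = i) ∧ (b = i + 1 ∨ b + 1 = n) ∧ ¬ (a = i ∧ b = i + 1)

def IsN (u : SP n) (i a b : ℕ) : Prop := ∀ x < n, ∀ y < n, ed n x y ∈ u.1 ↔
  (x = a ∧ y = b) ∨ (x = b ∧ y = a) ∨
    ((x + 1 = y ∨ y + 1 = x) ∧ ¬ ((x = i ∧ y = i + 1) ∨ (x = i + 1 ∧ y = i)))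

lemma IsN.uniq {u v : SP n} {i a b : ℕ} (h : IsN u i a b) (h' : IsN v i a b) : u = v :=
  Subtype.ext (ed_ext fun x hx y hy => by rw [h x hx y hy, h' x hx y hy])

lemma exN {i a b : ℕ} (h : Valid n i a b) : ∃ u : SP n, IsN u i a b := by
  unfold Valid at h
  refine ⟨act (mkp (fun k => if k ≤ i then (if a = i then k else i - k)
    else (if b = i + 1 then k else n + i - k)) (fun k hk => by split_ifs <;> omega)
    (fun k hk => by split_ifs <;> omega)) (pth 1), fun x hx y hy => ?_⟩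
  rw [mem_mkp _ _ _ hx hy]
  change _ ∈ edges 1 ↔ _
  rw [ed_mem (by split_ifs <;> omega) (by split_ifs <;> omega)]
  split_ifs <;> omega

lemma IsN.valid {u : SP n} {i a b : ℕ} (h : IsN u i a b) (hi : i + 1 < n) (hab : a ≤ b)
    (hb : b < n) : (a = 0 ∨ a = i) ∧ (b = i + 1 ∨ b + 1 = n) := by
  have c : a ≤ i ∧ i < b := by
    by_contra c
    have := conn u (· ≤ i) (fun x hx y hy k => by rw [h x hx y hy] at k; omega)
      (x := i) (y := i + 1) (by omega) hi
    omega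
  constructor
  · by_contra k
    have := deg u (x := a) (a := a - 1) (b := a + 1) (c := b) (by omega) (by omega) hb
      (by rw [h _ (by omega) _ (by omega)]; omega) (by rw [h _ (by omega) _ (by omega)]; omega)
      (by rw [h _ (by omega) _ (by omega)]; omega)
    omega
  · by_contra k
    have := deg u (x := b) (a := b - 1) (b := b + 1) (c := a) (by omega) (by omega) (by omega)
      (by rw [h _ (by omega) _ (by omega)]; omega) (by rw [h _ (by omega) _ (by omega)]; omega)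
      (by rw [h _ (by omega) _ (by omega)]; omega)
    omega

lemma adj_of {u v : SP n} {a b : ℕ} (ha : a < n) (hb : b < n) (h : ∀ x < n, ∀ y < n,
    ed n x y ∈ u.1 ∧ ed n x y ∉ v.1 ↔ (x = a ∧ y = b) ∨ (x = b ∧ y = a)) : (G n).Adj u v := by
  rw [adj_iff, card_eq_one]
  exact ⟨ed n a b, ed_ext fun x hx y hy => by
    rw [mem_sdiff, h x hx y hy, mem_singleton, ed_eq hx hy ha hb]⟩

lemma of_adj {u v : SP n} (h : (G n).Adj u v) : ∃ a b, a ≤ b ∧ b < n ∧ ∀ x < n, ∀ y < n,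
    ed n x y ∈ u.1 ∧ ed n x y ∉ v.1 ↔ (x = a ∧ y = b) ∨ (x = b ∧ y = a) := by
  obtain ⟨e, he⟩ := card_eq_one.1 ((adj_iff _ _).1 h)
  obtain ⟨a, b, h1, h2, rfl⟩ := ed_surj e
  exact ⟨a, b, h1, h2, fun x hx y hy => by
    rw [← mem_sdiff, he, mem_singleton, ed_eq hx hy (by omega) h2]⟩

lemma mem0 {x y : ℕ} (hx : x < n) (hy : y < n) :
    ed n x y ∈ (pth 1 : SP n).1 ↔ x + 1 = y ∨ y + 1 = x := ed_mem hx hy

lemma IsN.adj {u : SP n} {i a b : ℕ} (h : IsN u i a b) (v : Valid n i a b) :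
    (G n).Adj (pth 1) u := by
  unfold Valid at v
  exact adj_of (a := i) (b := i + 1) (by omega) v.1 fun x hx y hy => by
    rw [h x hx y hy, mem0 hx hy]; omega

lemma nbr {u : SP n} (h : (G n).Adj (pth 1) u) : ∃ i a b, Valid n i a b ∧ IsN u i a b := by
  obtain ⟨i, j, h1, h2, h3⟩ := of_adj h
  obtain ⟨a, b, k1, k2, k3⟩ := of_adj h.symm
  have e1 := (h3 i (by omega) j h2).2 (by omega)
  have e2 := (k3 a (by omega) b k2).2 (by omega)
  rw [mem0 (by omega) (by omega)] at e1 e2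
  obtain rfl : j = i + 1 := by omega
  have N : IsN u i a b := fun x hx y hy => by
    have a1 := h3 x hx y hy
    have a2 := k3 x hx y hy
    rw [mem0 hx hy] at a1 a2
    by_cases c : ed n x y ∈ u.1 <;> simp only [c, true_and, not_true, and_false, false_iff,
      true_iff, false_and, not_false_iff, and_true] at * <;> omega
  have := N.valid h2 k1 k2
  exact ⟨i, a, b, ⟨h2, this.1, this.2, by omega⟩, N⟩

lemma Valid.lt {i a b : ℕ} (h : Valid n i a b) : i + 1 < n ∧ a ≤ i ∧ i < b ∧ b < n ∧ a + 1 < b := by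
  unfold Valid at h; omega

lemma IsN.eq {u : SP n} {i a b : ℕ} (h : IsN u i a b) (hi : i + 1 < n) (ha : a < n) (hb : b < n) :
    u.1 = insert (ed n a b) ((pth 1 : SP n).1.erase (ed n i (i + 1))) :=
  ed_ext fun x hx y hy => by
    rw [h x hx y hy, mem_insert, mem_erase, mem0 hx hy, ne_eq, ed_eq hx hy ha hb,
      ed_eq hx hy (by omega) hi, or_assoc, and_comm (a := x + 1 = y ∨ _)]

lemma isN_of {u : SP n} {i a b : ℕ} (hi : i + 1 < n) (ha : a < n) (hb : b < n)
    (h : u.1 = insert (ed n a b) ((pth 1 : SP n).1.erase (ed n i (i + 1)))) : IsN u i a b :=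
  fun x hx y hy => by
    rw [h, mem_insert, mem_erase, mem0 hx hy, ne_eq, ed_eq hx hy ha hb,
      ed_eq hx hy (by omega) hi, or_assoc, and_comm (a := x + 1 = y ∨ _)]

lemma sd {α : Type} [DecidableEq α] {E : Finset α} {e e' f f' : α} (he : e ∈ E) (he' : e' ∈ E)
    (hf : f ∉ E) (hf' : f' ∉ E) : insert f (E.erase e) \ insert f' (E.erase e') =
      (if e = e' then ∅ else {e'}) ∪ if f = f' then ∅ else {f} := by
  ext x
  split_ifs <;> simp only [mem_sdiff, mem_insert, mem_erase, mem_union, mem_singleton,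
    notMem_empty] <;> grind

lemma adjN {u v : SP n} {i a b j c d : ℕ} (h : IsN u i a b) (hv : Valid n i a b)
    (h' : IsN v j c d) (hv' : Valid n j c d) :
    (G n).Adj u v ↔ (i = j ∧ ¬ (a = c ∧ b = d)) ∨ (i ≠ j ∧ a = c ∧ b = d) := by
  obtain ⟨a1, a2, a3, a4, a5⟩ := hv.lt
  obtain ⟨b1, b2, b3, b4, b5⟩ := hv'.lt
  clear hv hv'
  have m1 : ed n j (j + 1) ∈ (pth 1 : SP n).1 := (mem0 (by omega) b1).2 (Or.inl rfl)
  have m2 : ed n a b ∉ (pth 1 : SP n).1 := by rw [mem0 (by omega) a4]; omega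
  rw [adj_iff, h.eq a1 (by omega) a4, h'.eq b1 (by omega) b4,
    sd ((mem0 (by omega) a1).2 (Or.inl rfl)) m1 m2 (by rw [mem0 (by omega) b4]; omega)]
  have e1 : ed n i (i + 1) = ed n j (j + 1) ↔ i = j := by
    rw [ed_eq (by omega) a1 (by omega) b1]; omega
  have e2 : ed n a b = ed n c d ↔ a = c ∧ b = d := by
    rw [ed_eq (by omega) a4 (by omega) b4]; omega
  rw [← e2, ne_eq, ← e1]
  have : ed n j (j + 1) ≠ ed n a b := fun k => m2 (k ▸ m1)
  split_ifs with k1 k2 k2 <;> simp [k1, k2, card_pair this]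

lemma IsN.inj {u : SP n} {i a b j c d : ℕ} (h : IsN u i a b) (hv : Valid n i a b)
    (h' : IsN u j c d) (hv' : Valid n j c d) : i = j ∧ a = c ∧ b = d := by
  have := (adjN h hv h' hv').not.1 (G n).irrefl
  obtain ⟨a1, a2, a3, a4, a5⟩ := hv.lt
  obtain ⟨b1, b2, b3, b4, b5⟩ := hv'.lt
  clear hv hv'
  have e1 := (h' a (by omega) b a4).1 ((h a (by omega) b a4).2 (Or.inl ⟨rfl, rfl⟩))
  omega

def T (u v : SP n) : Prop := ∀ x y, (G n).Adj u x → (G n).Adj v x → (G n).Adj u y →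
  (G n).Adj v y → x ≠ y → (G n).Adj x y

def Big (u v : SP n) : Prop := ∃ x y z, x ≠ y ∧ x ≠ z ∧ y ≠ z ∧ ∀ w, w = x ∨ w = y ∨ w = z →
  (G n).Adj u w ∧ (G n).Adj v w

def Share (u v : SP n) : Prop := ∃ p : Fin n, ∀ e, e ∈ u.1 \ v.1 ∨ e ∈ v.1 \ u.1 → p ∈ e

omit [NeZero n] in
lemma T.map {u v : SP n} (h : T u v) (φ : G n ≃g G n) : T (φ u) (φ v) := by
  intro x y
  obtain ⟨x, rfl⟩ := φ.surjective x
  obtain ⟨y, rfl⟩ := φ.surjective y
  simp only [φ.map_adj_iff]
  exact fun a b c d e => h x y a b c d fun k => e (by rw [k])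

omit [NeZero n] in
lemma Big.map {u v : SP n} (h : Big u v) (φ : G n ≃g G n) : Big (φ u) (φ v) := by
  obtain ⟨x, y, z, a, b, c, d⟩ := h
  refine ⟨φ x, φ y, φ z, φ.injective.ne a, φ.injective.ne b, φ.injective.ne c, ?_⟩
  rintro w (rfl | rfl | rfl) <;> simp only [φ.map_adj_iff] <;> exact d _ (by simp)

omit [NeZero n] in
lemma Share.map {u v : SP n} (h : Share u v) (π : Perm (Fin n)) : Share (act π u) (act π v) := by
  obtain ⟨p, h⟩ := h
  refine ⟨π p, fun e he => ?_⟩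
  have := h (Sym2.map π.symm e) (by
    simp only [mem_sdiff] at he ⊢
    rw [← mem_img, ← mem_img]; exact he)
  obtain ⟨q, h1, h2⟩ := Sym2.mem_map.1 this
  rw [← h2]; simpa using h1

lemma mem_ed {p : Fin n} {a b : ℕ} (ha : a < n) (hb : b < n) : p ∈ ed n a b ↔ p.val = a ∨ p.val = b := by
  simp only [ed, Sym2.mem_iff, Fin.ext_iff, ofv, ha, hb]

lemma share_iff {u v : SP n} {a b c d : ℕ} (ha : a < n) (hb : b < n) (hc : c < n) (hd : d < n)
    (h1 : u.1 \ v.1 = {ed n a b}) (h2 : v.1 \ u.1 = {ed n c d}) :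
    Share u v ↔ a = c ∨ a = d ∨ b = c ∨ b = d := by
  simp only [Share, h1, h2, mem_singleton]
  constructor
  · rintro ⟨p, h⟩
    have := (mem_ed ha hb).1 (h _ (Or.inl rfl))
    have := (mem_ed hc hd).1 (h _ (Or.inr rfl))
    omega
  · intro h
    obtain ⟨p, hp, h⟩ : ∃ p < n, (p = a ∨ p = b) ∧ (p = c ∨ p = d) := by
      by_cases k : a = c ∨ a = d
      exacts [⟨a, ha, by omega⟩, ⟨b, hb, by omega⟩]
    refine ⟨⟨p, hp⟩, ?_⟩
    rintro e (rfl | rfl)
    exacts [(mem_ed ha hb).2 h.1, (mem_ed hc hd).2 h.2]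

lemma Valid.mem {i a b : ℕ} (h : Valid n i a b) :
    ed n i (i + 1) ∈ (pth 1 : SP n).1 ∧ ed n a b ∉ (pth 1 : SP n).1 := by
  obtain ⟨a1, a2, a3, a4, a5⟩ := h.lt
  clear h
  exact ⟨(mem0 (by omega) a1).2 (Or.inl rfl), by rw [mem0 (by omega) a4]; omega⟩

lemma share0 {u : SP n} {i a b : ℕ} (h : IsN u i a b) (hv : Valid n i a b) :
    Share (pth 1) u ↔ a = i ∨ b = i + 1 := by
  obtain ⟨m1, m2⟩ := hv.mem
  obtain ⟨a1, a2, a3, a4, a5⟩ := hv.lt
  clear hv
  rw [share_iff (a := i) (b := i + 1) (c := a) (d := b) (by omega) a1 (by omega) a4]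
  · omega
  all_goals
    rw [h.eq a1 (by omega) a4]; ext x
    simp only [mem_sdiff, mem_insert, mem_erase, mem_singleton]; grind

lemma shareC {u v : SP n} {i j a b : ℕ} (h : IsN u i a b) (hv : Valid n i a b) (h' : IsN v j a b)
    (hv' : Valid n j a b) (ne : i ≠ j) : Share u v ↔ i + 1 = j ∨ j + 1 = i := by
  obtain ⟨m1, m2⟩ := hv.mem
  obtain ⟨m3, -⟩ := hv'.mem
  obtain ⟨a1, a2, a3, a4, a5⟩ := hv.lt
  obtain ⟨b1, -⟩ := hv'.lt
  clear hv hv'
  have e1 : ed n i (i + 1) ≠ ed n j (j + 1) := by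
    rw [ne_eq, ed_eq (by omega) a1 (by omega) b1]; omega
  rw [share_iff (a := j) (b := j + 1) (c := i) (d := i + 1) (by omega) b1 (by omega) a1]
  · omega
  · rw [h.eq a1 (by omega) a4, h'.eq b1 (by omega) a4, sd m1 m3 m2 m2]; simp [e1]
  · rw [h.eq a1 (by omega) a4, h'.eq b1 (by omega) a4, sd m3 m1 m2 m2]; simp [e1.symm]

lemma T0 {u : SP n} {i a b : ℕ} (h : IsN u i a b) (hv : Valid n i a b) :
    T (pth 1) u ↔ a = i ∨ b = i + 1 := by
  constructor
  · intro k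
    by_contra c
    have v1 : Valid n i 0 (i + 1) := by unfold Valid at *; omega
    have v2 : Valid n 0 a b := by unfold Valid at *; omega
    obtain ⟨x, hx⟩ := exN v1
    obtain ⟨y, hy⟩ := exN v2
    have := k x y (hx.adj v1) ((adjN h hv hx v1).2 (by omega)) (hy.adj v2)
      ((adjN h hv hy v2).2 (by unfold Valid at hv; omega)) (fun e => by
        have := hx.inj v1 (e ▸ hy) v2; omega)
    rw [adjN hx v1 hy v2] at this
    unfold Valid at hv; omega
  · intro c x y a1 a2 a3 a4 ne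
    obtain ⟨j, p, q, v1, hx⟩ := nbr a1
    obtain ⟨k, r, s, v2, hy⟩ := nbr a3
    rw [adjN h hv hx v1] at a2
    rw [adjN h hv hy v2] at a4
    rw [adjN hx v1 hy v2]
    have : ¬ (j = k ∧ p = r ∧ q = s) := by rintro ⟨rfl, rfl, rfl⟩; exact ne (hx.uniq hy)
    unfold Valid at *; omega

lemma TS {u v : SP n} (h : (G n).Adj u v) : T u v ↔ Share u v := by
  obtain ⟨_, σ, rfl⟩ := u
  have e : (⟨edges σ, σ, rfl⟩ : SP n) = act σ (pth 1) := by rw [act_pth, mul_one]; rfl
  have e' : act σ⁻¹ (act σ (pth 1)) = pth 1 := by rw [act_pth, act_pth]; simp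
  rw [e, ← act_inv σ v] at h ⊢
  obtain ⟨i, a, b, hv, hN⟩ := nbr ((act σ).map_adj_iff.1 h)
  have e2 : act σ⁻¹ (act σ (act σ⁻¹ v)) = act σ⁻¹ v := by rw [act_inv]
  constructor
  · intro k
    have := k.map (act σ⁻¹)
    rw [e', e2, T0 hN hv, ← share0 hN hv] at this
    exact this.map σ
  · intro k
    have := k.map σ⁻¹
    rw [e', e2, share0 hN hv, ← T0 hN hv] at this
    exact this.map (act σ)

omit [NeZero n] in
lemma aux {i a b p q r s : ℕ} (h : Valid n i a b) (c : ¬ (a = 0 ∧ b + 1 = n)) (h1 : Valid n i p q)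
    (c1 : ¬ (a = p ∧ b = q)) (h2 : Valid n i r s) (c2 : ¬ (a = r ∧ b = s))
    (e : (p = 0 ∧ q + 1 = n) ↔ (r = 0 ∧ s + 1 = n)) : p = r ∧ q = s := by
  unfold Valid at *; omega

lemma big0 (hn : 5 ≤ n) {u : SP n} {i a b : ℕ} (h : IsN u i a b) (hv : Valid n i a b) :
    Big (pth 1) u ↔ a = 0 ∧ b + 1 = n := by
  constructor
  · rintro ⟨x, y, z, n1, n2, n3, k⟩
    obtain ⟨j1, p1, q1, v1, hx⟩ := nbr (k x (by simp)).1
    obtain ⟨j2, p2, q2, v2, hy⟩ := nbr (k y (by simp)).1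
    obtain ⟨j3, p3, q3, v3, hz⟩ := nbr (k z (by simp)).1
    have a1 := (adjN h hv hx v1).1 (k x (by simp)).2
    have a2 := (adjN h hv hy v2).1 (k y (by simp)).2
    have a3 := (adjN h hv hz v3).1 (k z (by simp)).2
    by_contra c
    have b1 : j1 = i := by clear a2 a3 v2 v3; unfold Valid at *; omega
    have b2 : j2 = i := by clear a1 a3 v1 v3; unfold Valid at *; omega
    have b3 : j3 = i := by clear a2 a1 v2 v1; unfold Valid at *; omega
    subst b1 b2 b3
    simp only [true_and, ne_eq, not_true, false_and, or_false] at a1 a2 a3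
    have d1 := mt (aux hv c v1 a1 v2 a2) (by rintro ⟨rfl, rfl⟩; exact n1 (hx.uniq hy))
    have d2 := mt (aux hv c v1 a1 v3 a3) (by rintro ⟨rfl, rfl⟩; exact n2 (hx.uniq hz))
    have d3 := mt (aux hv c v2 a2 v3 a3) (by rintro ⟨rfl, rfl⟩; exact n3 (hy.uniq hz))
    tauto
  · rintro ⟨rfl, rfl⟩
    have v : ∀ j < 4, Valid (b + 1) j 0 b := fun j hj => by unfold Valid; omega
    have k : ∀ j1 < 4, ∀ j2 < 4, ∀ j3 < 4, j1 ≠ j2 → j1 ≠ j3 → j2 ≠ j3 → i ≠ j1 → i ≠ j2 →
        i ≠ j3 → Big (pth 1) u := by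
      intro j1 l1 j2 l2 j3 l3 n1 n2 n3 m1 m2 m3
      obtain ⟨x, hx⟩ := exN (v j1 l1)
      obtain ⟨y, hy⟩ := exN (v j2 l2)
      obtain ⟨z, hz⟩ := exN (v j3 l3)
      refine ⟨x, y, z, fun e => n1 (hx.inj (v _ l1) (e ▸ hy) (v _ l2)).1,
        fun e => n2 (hx.inj (v _ l1) (e ▸ hz) (v _ l3)).1,
        fun e => n3 (hy.inj (v _ l2) (e ▸ hz) (v _ l3)).1, ?_⟩
      rintro w (rfl | rfl | rfl)
      exacts [⟨hx.adj (v _ l1), (adjN h hv hx (v _ l1)).2 (Or.inr ⟨m1, rfl, rfl⟩)⟩,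
        ⟨hy.adj (v _ l2), (adjN h hv hy (v _ l2)).2 (Or.inr ⟨m2, rfl, rfl⟩)⟩,
        ⟨hz.adj (v _ l3), (adjN h hv hz (v _ l3)).2 (Or.inr ⟨m3, rfl, rfl⟩)⟩]
    exact k (if i = 0 then 3 else 0) (by split_ifs <;> omega) (if i = 1 then 3 else 1)
      (by split_ifs <;> omega) (if i = 2 then 3 else 2) (by split_ifs <;> omega)
      (by split_ifs <;> omega) (by split_ifs <;> omega) (by split_ifs <;> omega)
      (by split_ifs <;> omega) (by split_ifs <;> omega) (by split_ifs <;> omega)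

lemma second {u v : SP n} {i j : ℕ} (h : IsN u j 0 (j + 1)) (h' : IsN v i i (n - 1)) (h0 : 0 < j)
    (h1 : j < i) (h2 : i + 2 < n) : ∃ q, q ≠ pth 1 ∧ (G n).Adj u q ∧ (G n).Adj v q := by
  obtain ⟨q, hq⟩ : ∃ q : SP n, ∀ x < n, ∀ y < n, ed n x y ∈ q.1 ↔
      ((x = 0 ∧ y = j + 1) ∨ (x = j + 1 ∧ y = 0)) ∨ ((x = i ∧ y = n - 1) ∨ (x = n - 1 ∧ y = i)) ∨
      ((x + 1 = y ∨ y + 1 = x) ∧ ¬ ((x = j ∧ y = j + 1) ∨ (x = j + 1 ∧ y = j)) ∧
        ¬ ((x = i ∧ y = i + 1) ∨ (x = i + 1 ∧ y = i))) := by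
    refine ⟨act (mkp (fun k => if k ≤ j then j - k else if k ≤ i then k else n + i - k)
      (fun k hk => by split_ifs <;> omega) (fun k hk => by split_ifs <;> omega)) (pth 1),
      fun x hx y hy => ?_⟩
    rw [mem_mkp _ _ _ hx hy, mem0 (by split_ifs <;> omega) (by split_ifs <;> omega)]
    split_ifs <;> omega
  refine ⟨q, fun e => ?_, adj_of (a := i) (b := i + 1) (by omega) (by omega) fun x hx y hy => ?_,
    adj_of (a := j) (b := j + 1) (by omega) (by omega) fun x hx y hy => ?_⟩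
  · have := (hq 0 (by omega) (j + 1) (by omega)).2 (by omega)
    rw [e, mem0 (by omega) (by omega)] at this; omega
  · rw [h x hx y hy, hq x hx y hy]; omega
  · rw [h' x hx y hy, hq x hx y hy]; omega

omit [NeZero n] in
lemma four {α : Type} [DecidableEq α] {E Q : Finset α} {e e' f f' : α} (he : e ∈ E) (he' : e' ∈ E)
    (hf : f ∉ E) (hf' : f' ∉ E) (n1 : e ≠ e') (n2 : f ≠ f')
    (a1 : #(insert f (E.erase e) \ Q) = 1) (a2 : #(Q \ insert f (E.erase e)) = 1)
    (a3 : #(insert f' (E.erase e') \ Q) = 1) (a4 : #(Q \ insert f' (E.erase e')) = 1) :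
    Q = E ∨ Q = insert f' (E.erase e) ∨ Q = insert f (E.erase e') ∨
      Q = insert f (insert f' ((E.erase e).erase e')) := by
  obtain ⟨x1, b1⟩ := card_eq_one.1 a1
  obtain ⟨x2, b2⟩ := card_eq_one.1 a2
  obtain ⟨x3, b3⟩ := card_eq_one.1 a3
  obtain ⟨x4, b4⟩ := card_eq_one.1 a4
  simp only [Finset.ext_iff, mem_sdiff, mem_insert, mem_erase, mem_singleton] at b1 b2 b3 b4 ⊢
  have := b1 e'; have := b1 f; have := b2 e; have := b2 f'
  have := b3 e; have := b3 f'; have := b4 e'; have := b4 f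
  by_cases c1 : e ∈ Q <;> by_cases c2 : e' ∈ Q
  · left; grind
  · right; right; left; grind
  · right; left; grind
  · right; right; right; grind

lemma nosecond {u v q : SP n} {i j a b c d : ℕ} (h : IsN u j a b) (hv : Valid n j a b)
    (h' : IsN v i c d) (hv' : Valid n i c d) (h1 : j < i) (h2 : ¬ (a = 0 ∧ b + 1 = n))
    (h3 : ¬ (c = 0 ∧ d + 1 = n)) (a1 : (G n).Adj u q) (a2 : (G n).Adj v q) (ne : q ≠ pth 1) :
    a = 0 ∧ c = i := by
  obtain ⟨m1, m2⟩ := hv.mem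
  obtain ⟨m3, m4⟩ := hv'.mem
  obtain ⟨l1, l2, l3, l4, l5⟩ := hv.lt
  obtain ⟨k1, k2, k3, k4, k5⟩ := hv'.lt
  have b1 := (adj_iff _ _).1 a1
  have b2 := (adj_iff _ _).1 a1.symm
  have b3 := (adj_iff _ _).1 a2
  have b4 := (adj_iff _ _).1 a2.symm
  rw [h.eq l1 (by omega) l4] at b1 b2
  rw [h'.eq k1 (by omega) k4] at b3 b4
  unfold Valid at hv hv'
  rcases four m1 m3 m2 m4 (by rw [ne_eq, ed_eq (by omega) l1 (by omega) k1]; omega)
    (by rw [ne_eq, ed_eq (by omega) l4 (by omega) k4]; omega) b1 b2 b3 b4 with e | e | e | e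
  · exact (ne (Subtype.ext e)).elim
  · have := (isN_of l1 (by omega) k4 e).valid l1 (by omega) k4; omega
  · have := (isN_of k1 (by omega) l4 e).valid k1 (by omega) l4; omega
  have m : ∀ x < n, ∀ y < n, ed n x y ∈ q.1 ↔ ((x = a ∧ y = b) ∨ (x = b ∧ y = a)) ∨
      ((x = c ∧ y = d) ∨ (x = d ∧ y = c)) ∨ ¬ ((x = i ∧ y = i + 1) ∨ (x = i + 1 ∧ y = i)) ∧
      ¬ ((x = j ∧ y = j + 1) ∨ (x = j + 1 ∧ y = j)) ∧ (x + 1 = y ∨ y + 1 = x) := by
    intro x hx y hy
    rw [e, mem_insert, mem_insert, mem_erase, mem_erase, mem0 hx hy, ne_eq, ne_eq,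
      ed_eq hx hy (by omega) l4, ed_eq hx hy (by omega) k4, ed_eq hx hy (by omega) k1,
      ed_eq hx hy (by omega) l1]
  by_contra z
  by_cases s1 : a = 0
  · obtain ⟨rfl, rfl, rfl, rfl⟩ : a = 0 ∧ b = j + 1 ∧ c = 0 ∧ d = i + 1 := by omega
    have := deg q (x := 0) (a := 1) (b := j + 1) (c := i + 1) (by omega) l4 k4
      ((m _ (by omega) _ (by omega)).2 (by omega)) ((m _ (by omega) _ l4).2 (by omega))
      ((m _ (by omega) _ k4).2 (by omega))
    omega
  by_cases s2 : c = 0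
  · obtain ⟨rfl, e2, rfl, rfl⟩ : a = j ∧ b + 1 = n ∧ c = 0 ∧ d = i + 1 := by omega
    have := conn q (fun k => k ≤ a ∨ i < k) (fun x hx y hy k => by rw [m x hx y hy] at k; omega)
      (x := 0) (y := i) (by omega) (by omega)
    omega
  · obtain ⟨rfl, e2, rfl, rfl⟩ : a = j ∧ b + 1 = n ∧ c = i ∧ d = b := by omega
    have := deg q (x := d) (a := d - 1) (b := a) (c := c) (by omega) (by omega) (by omega)
      ((m _ l4 _ (by omega)).2 (by omega)) ((m _ l4 _ (by omega)).2 (by omega))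
      ((m _ l4 _ (by omega)).2 (by omega))
    omega

def Fix (ψ : G n ≃g G n) (p : SP n) : Prop := ψ p = p ∧ ∀ u, (G n).Adj p u → ψ u = u

lemma fix0 (hn : 5 ≤ n) (ψ : G n ≃g G n) (h0 : ψ (pth 1) = pth 1) {c : SP n}
    (hc : IsN c 0 0 (n - 1)) (h1 : ψ c = c) : Fix ψ (pth 1) := by
  have v : ∀ i, i + 1 < n → Valid n i 0 (n - 1) := fun i hi => by unfold Valid; omega
  have im : ∀ {u}, (G n).Adj (pth 1) u → (G n).Adj (pth 1) (ψ u) := fun h => by
    rw [← h0]; exact ψ.map_adj_iff.2 h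
  have hC : ∀ i, ∀ j ≤ i, j + 1 < n → ∀ u, IsN u j 0 (n - 1) → ψ u = u := by
    intro i
    induction i with
    | zero => intro j hj _ u hu; obtain rfl : j = 0 := by omega
              rw [hu.uniq hc, h1]
    | succ i ih =>
      intro j hj l u hu
      rcases hj.eq_or_lt with rfl | hj
      swap
      · exact ih j (by omega) l u hu
      obtain ⟨w, hw⟩ := exN (v i (by omega))
      obtain ⟨k, a, b, vk, hk⟩ := nbr (im (hu.adj (v _ l)))
      have b1 := ((big0 hn hu (v _ l)).2 (by omega)).map ψ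
      rw [h0, big0 hn hk vk] at b1
      obtain ⟨rfl, rfl⟩ : a = 0 ∧ b = n - 1 := by omega
      have ad : (G n).Adj w u := (adjN hw (v i (by omega)) hu (v _ l)).2 (by omega)
      have t := ((TS ad).2 ((shareC hw (v i (by omega)) hu (v _ l) (by omega)).2 (by omega))).map ψ
      have ad' := ψ.map_adj_iff.2 ad
      rw [TS ad'] at t
      rw [ih i le_rfl (by omega) w hw] at t ad'
      rw [shareC hw (v i (by omega)) hk vk (by
        have := (adjN hw (v i (by omega)) hk vk).1 ad'; omega)] at t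
      rcases t with rfl | rfl
      · exact hk.uniq hu
      · have := ih k (by omega) (by omega) _ hk
        have := (ψ.injective this ▸ hk : IsN u k 0 (n - 1)).inj vk hu (v _ l)
        omega
  have hN : ∀ {u i a b}, IsN u i a b → Valid n i a b → ¬ (a = 0 ∧ b + 1 = n) →
      ∃ c d, IsN (ψ u) i c d ∧ Valid n i c d ∧ ¬ (c = 0 ∧ d + 1 = n) := by
    intro u i a b hu vu ne
    obtain ⟨k, c, d, vk, hk⟩ := nbr (im (hu.adj vu))
    have b1 : ¬ (c = 0 ∧ d + 1 = n) := fun e => by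
      have := ((big0 hn hk vk).2 e).map ψ.symm
      rw [← h0, ψ.symm_apply_apply, ψ.symm_apply_apply, big0 hn hu vu] at this
      exact ne this
    obtain ⟨w, hw⟩ := exN (v i vu.1)
    have ad := ψ.map_adj_iff.2 ((adjN hw (v i vu.1) hu vu).2 (by omega))
    rw [hC i i le_rfl vu.1 w hw, adjN hw (v i vu.1) hk vk] at ad
    obtain rfl : i = k := by omega
    exact ⟨c, d, hk, vk, b1⟩
  have pair : ∀ {u w i j}, IsN u j 0 (j + 1) → IsN w i i (n - 1) → 0 < j → j < i → i + 2 < n →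
      ψ u = u ∧ ψ w = w := by
    intro u w i j hu hw l1 l2 l3
    obtain ⟨q, q1, q2, q3⟩ := second hu hw l1 l2 l3
    obtain ⟨a, b, a1, a2, a3⟩ := hN hu (by unfold Valid; omega) (by omega)
    obtain ⟨c, d, c1, c2, c3⟩ := hN hw (by unfold Valid; omega) (by omega)
    obtain ⟨rfl, rfl⟩ := nosecond a1 a2 c1 c2 l2 a3 c3 (ψ.map_adj_iff.2 q2) (ψ.map_adj_iff.2 q3)
      fun e => q1 (ψ.injective (e.trans h0.symm))
    obtain rfl : b = j + 1 := by unfold Valid at a2; omega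
    obtain rfl : d = n - 1 := by unfold Valid at c2; omega
    exact ⟨a1.uniq hu, c1.uniq hw⟩
  refine ⟨h0, fun u hu => ?_⟩
  obtain ⟨i, a, b, vu, hu⟩ := nbr hu
  by_cases e : a = 0 ∧ b + 1 = n
  · obtain ⟨rfl, rfl⟩ : a = 0 ∧ b = n - 1 := by omega
    exact hC i i le_rfl vu.1 u hu
  have l : 0 < i ∧ i + 2 < n := by unfold Valid at vu; omega
  obtain ⟨x, hx⟩ := exN (n := n) (i := i) (a := 0) (b := i + 1) (by unfold Valid; omega)
  obtain ⟨y, hy⟩ := exN (n := n) (i := i) (a := i) (b := n - 1) (by unfold Valid; omega)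
  have uxy : ∀ {u a b}, IsN u i a b → Valid n i a b → ¬ (a = 0 ∧ b + 1 = n) → u = x ∨ u = y := by
    intro u a b hu vu e
    by_cases k : a = 0
    · obtain ⟨rfl, rfl⟩ : a = 0 ∧ b = i + 1 := by unfold Valid at vu; omega
      exact Or.inl (hu.uniq hx)
    · obtain ⟨rfl, rfl⟩ : a = i ∧ b = n - 1 := by unfold Valid at vu; omega
      exact Or.inr (hu.uniq hy)
  have fx : ψ x = x ∨ ψ y = y := by
    by_cases k : i = 1
    · obtain ⟨w, hw⟩ := exN (n := n) (i := 2) (a := 2) (b := n - 1) (by unfold Valid; omega)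
      exact Or.inl (pair hx hw l.1 (by omega) (by omega)).1
    · obtain ⟨w, hw⟩ := exN (n := n) (i := 1) (a := 0) (b := 1 + 1) (by unfold Valid; omega)
      exact Or.inr (pair hw hy (by omega) (by omega) l.2).2
  obtain ⟨c, d, c1, c2, c3⟩ := hN hu vu e
  by_contra ne
  rcases uxy hu vu e with rfl | rfl <;> rcases uxy c1 c2 c3 with k | k <;> rcases fx with f | f <;>
    first | exact ne k | exact ne f | exact ne (by rw [ψ.injective (k.trans f.symm), f])

omit [NeZero n] in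
lemma mkp_val (f : ℕ → ℕ) (h1 : ∀ k < n, f k < n) (h2 : ∀ k < n, f (f k) = k) (x : Fin n) :
    (mkp f h1 h2 x).val = f x := rfl

def rev (n : ℕ) : Perm (Fin n) :=
  mkp (fun k => n - 1 - k) (fun k hk => by omega) fun k hk => by omega

lemma rev0 : act (rev n) (pth 1) = pth 1 := Subtype.ext (ed_ext fun x hx y hy => by
  rw [rev, mem_mkp _ _ _ hx hy, mem0 (by omega) (by omega), mem0 hx hy]; omega)

lemma revN {u : SP n} {i a b : ℕ} (h : IsN u i a b) (v : Valid n i a b) :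
    IsN (act (rev n) u) (n - 2 - i) (n - 1 - b) (n - 1 - a) := fun x hx y hy => by
  have := v.lt
  clear v
  rw [rev, mem_mkp _ _ _ hx hy, h _ (by omega) _ (by omega)]; omega

lemma loc (hn : 5 ≤ n) (ψ : G n ≃g G n) (h0 : ψ (pth 1) = pth 1) :
    Fix ψ (pth 1) ∨ Fix (ψ.trans (act (rev n))) (pth 1) := by
  have v : Valid n 0 0 (n - 1) := by unfold Valid; omega
  obtain ⟨c, hc⟩ := exN v
  obtain ⟨k, a, b, vk, hk⟩ := nbr (u := ψ c) (by rw [← h0]; exact ψ.map_adj_iff.2 (hc.adj v))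
  have b1 := ((big0 hn hc v).2 (by omega)).map ψ
  have b2 := ((T0 hc v).2 (by omega)).map ψ
  rw [h0, big0 hn hk vk] at b1
  rw [h0, T0 hk vk] at b2
  obtain ⟨rfl, rfl⟩ : a = 0 ∧ b = n - 1 := by omega
  rcases b2 with rfl | e
  · exact Or.inl (fix0 hn ψ h0 hc (hk.uniq hc))
  · refine Or.inr (fix0 hn _ ((congrArg _ h0).trans rev0) hc (IsN.uniq ?_ hc))
    have := revN hk vk
    rwa [show n - 2 - k = 0 by omega, Nat.sub_self] at this

lemma step (hn : 5 ≤ n) (ψ : G n ≃g G n) {p q : SP n} (h : Fix ψ p) (a : (G n).Adj p q) :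
    Fix ψ q := by
  obtain ⟨_, σ, rfl⟩ := q
  have e : (⟨edges σ, σ, rfl⟩ : SP n) = act σ (pth 1) := by rw [act_pth, mul_one]; rfl
  rw [e] at a ⊢
  obtain ⟨p, rfl⟩ := (act σ).surjective p
  let χ := ((act σ).trans ψ).trans (act σ).symm
  have k : ∀ u, χ u = u ↔ ψ (act σ u) = act σ u := fun u => (act σ).symm_apply_eq
  rcases loc hn χ ((k _).2 (h.2 _ a)) with f | f
  · refine ⟨h.2 _ a, fun u hu => ?_⟩
    obtain ⟨u, rfl⟩ := (act σ).surjective u
    exact (k u).1 (f.2 u ((act σ).map_adj_iff.1 hu))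
  exfalso
  have fx : ∀ {u i a b}, IsN u i a b → Valid n i a b → χ u = u →
      i + i + 2 = n ∧ a = 0 ∧ b + 1 = n := by
    intro u i a b hu vu c
    have := f.2 u (hu.adj vu)
    change act (rev n) (χ u) = u at this
    rw [c] at this
    have := (this ▸ revN hu vu : IsN u _ _ _).inj (by unfold Valid at *; omega) hu vu
    unfold Valid at vu; omega
  obtain ⟨i, a, b, vu, hu⟩ := nbr ((act σ).map_adj_iff.1 a).symm
  have f1 := fx hu vu ((k p).2 h.1)
  have v : Valid n 0 a b := by unfold Valid; omega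
  obtain ⟨r, hr⟩ := exN v
  have f2 := fx hr v ((k r).2 (h.2 _ ((act σ).map_adj_iff.2 ((adjN hu vu hr v).2 (by omega)))))
  omega

lemma all (hn : 5 ≤ n) (ψ : G n ≃g G n) (h : Fix ψ (pth 1)) (u : SP n) : ψ u = u := by
  let M : Submonoid (Perm (Fin n)) :=
    { carrier := {τ | ∀ σ, Fix ψ (pth σ) → Fix ψ (pth (σ * τ))}
      one_mem' := fun σ h => by rwa [mul_one]
      mul_mem' := fun ha hb σ h => by rw [← mul_assoc]; exact hb _ (ha _ h) }
  let R : ∀ k < n, Perm (Fin n) := fun k hk => mkp (fun x => if x ≤ k then k - x else x)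
    (fun x hx => by split_ifs <;> omega) fun x hx => by split_ifs <;> omega
  have hR : ∀ k hk, R k hk ∈ M := by
    intro k hk σ hσ
    have m : ∀ x < n, ∀ y < n, ed n x y ∈ (pth (R k hk)).1 ↔
        (if x ≤ k then k - x else x) + 1 = (if y ≤ k then k - y else y) ∨
        (if y ≤ k then k - y else y) + 1 = (if x ≤ k then k - x else x) := by
      intro x hx y hy
      rw [← mul_one (R k hk), ← act_pth, mem_mkp _ _ _ hx hy,
        mem0 (by split_ifs <;> omega) (by split_ifs <;> omega)]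
    rw [← act_pth]
    by_cases c : k = 0 ∨ k + 1 = n
    · have : pth (R k hk) = pth 1 := Subtype.ext (ed_ext fun x hx y hy => by
        rw [m x hx y hy, mem0 hx hy]; split_ifs <;> omega)
      rwa [this, act_pth, mul_one]
    · refine step hn ψ hσ ?_
      rw [← mul_one σ, ← act_pth, mul_one, (act σ).map_adj_iff]
      exact IsN.adj (i := k) (a := 0) (b := k + 1) (fun x hx y hy => by
        rw [m x hx y hy]; split_ifs <;> omega) (by unfold Valid; omega)
  have top : M = ⊤ := by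
    obtain ⟨m, rfl⟩ : ∃ m, n = m + 1 := ⟨n - 1, by omega⟩
    rw [eq_top_iff, ← Perm.mclosure_swap_castSucc_succ, Submonoid.closure_le]
    rintro _ ⟨i, rfl⟩
    have : swap i.castSucc i.succ =
        R (i + 1) (by omega) * R 1 (by omega) * R (i + 1) (by omega) := by
      ext x
      simp only [R, Perm.mul_apply, mkp_val, swap_apply_def,
        Fin.ext_iff, Fin.val_castSucc, Fin.val_succ, apply_ite Fin.val]
      split_ifs <;> omega
    simp only [this]
    exact M.mul_mem (M.mul_mem (hR _ (by omega)) (hR _ (by omega))) (hR _ (by omega))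
  obtain ⟨_, σ, rfl⟩ := u
  have := (top ▸ Submonoid.mem_top σ : σ ∈ M) 1 h
  rw [one_mul] at this
  exact this.1

omit [NeZero n] in
theorem result (n : ℕ) (hn : 5 ≤ n) (φ : G n ≃g G n) :
    ∃ π : Perm (Fin n), ∀ u : SP n, (φ u).1 = u.1.image (Sym2.map π) := by
  haveI : NeZero n := ⟨by omega⟩
  obtain ⟨σ, hσ⟩ := (φ (pth 1)).2
  have e : φ (pth 1) = act σ (pth 1) := by rw [act_pth, mul_one]; exact Subtype.ext hσ
  rcases loc hn (φ.trans (act σ).symm) ((act σ).symm_apply_eq.2 e) with f | f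
  · exact ⟨σ, fun u => congrArg (·.1) ((act σ).symm_apply_eq.1 (all hn _ f u))⟩
  · refine ⟨σ * (rev n)⁻¹, fun u => ?_⟩
    have := all hn _ f u
    change act (rev n) ((act σ).symm (φ u)) = u at this
    rw [← (act (rev n)).eq_symm_apply, (act σ).symm_apply_eq] at this
    rw [this]
    exact congrArg (·.1) (act0_mul σ (rev n)⁻¹ u)

end Pool.Agent.Results.MP_89fae5_co.Yes
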